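import Pool.Agent.W96.CL.Stm

/-!
# Project CL, part CNTC: the number of zeros in the sector is locally constant
-/

set_option autoImplicit false

open Polynomial Filter Topology

namespace W96CL.W327

lemma mem_iff (z : ℂ) : (z ≠ 0 ∧ |z.arg| ≤ Real.pi / 3) ↔ (z ≠ 0 ∧ ‖z‖ / 2 ≤ z.re) := by
  refine and_congr_right fun hz => ?_
  have hn : 0 < ‖z‖ := norm_pos_iff.2 hz
  have h1 : |z.arg| ∈ Set.Icc 0 Real.pi := ⟨abs_nonneg _, Complex.abs_arg_le_pi z⟩
  have h2 : Real.pi / 3 ∈ Set.Icc 0 Real.pi := by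
    constructor <;> linarith [Real.pi_pos]
  rw [← Real.strictAntiOn_cos.le_iff_ge h2 h1, Real.cos_abs, Complex.cos_arg hz,
    Real.cos_pi_div_three, le_div_iff₀ hn]
  constructor <;> intro h <;> linarith

lemma bdry {z : ℂ} (hz : z ≠ 0) (h : z.re = ‖z‖ / 2) :
    z = (‖z‖ : ℂ) * uu ∨ z = (‖z‖ : ℂ) * uu⁻¹ := by
  have hn : 0 < ‖z‖ := norm_pos_iff.2 hz
  have hsq : z.re * z.re + z.im * z.im = ‖z‖ ^ 2 := by
    rw [← Complex.normSq_apply, Complex.normSq_eq_norm_sq]
  have h3 : Real.sqrt 3 ^ 2 = 3 := Real.sq_sqrt (by norm_num)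
  have him : z.im ^ 2 = (‖z‖ * (Real.sqrt 3 / 2)) ^ 2 := by
    rw [mul_pow, div_pow, h3]
    rw [h] at hsq
    nlinarith
  have huu : uu⁻¹ = (⟨1 / 2, -(Real.sqrt 3 / 2)⟩ : ℂ) := by
    refine inv_eq_of_mul_eq_one_right ?_
    apply Complex.ext
    · simp [uu, Complex.mul_re]
      nlinarith
    · simp [uu, Complex.mul_im]
      ring
  rcases sq_eq_sq_iff_eq_or_eq_neg.1 him with h4 | h4
  · left
    apply Complex.ext
    · simp [uu, Complex.mul_re, h]
      ring
    · simp [uu, Complex.mul_im, h4]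
  · right
    rw [huu]
    apply Complex.ext
    · simp [Complex.mul_re, h]
      ring
    · simp [Complex.mul_im, h4]

lemma cnt_eq {d : ℕ} (t : ℝ[X]) (c : ℂ) (hc : c ≠ 0) (ξ : Fin d → ℂ)
    (h : C c * t.map (algebraMap ℝ ℂ) = ∏ i, (X - C (ξ i))) :
    (t.map (algebraMap ℝ ℂ)).roots = Finset.univ.val.map ξ := by
  rw [← Polynomial.roots_C_mul _ hc, h]
  have h2 : (∏ i, (X - C (ξ i)) : ℂ[X]) =
      ((Finset.univ.val.map ξ).map fun a => X - C a).prod := by
    rw [Multiset.map_map]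
    rfl
  rw [h2, Polynomial.roots_multiset_prod_X_sub_C]

theorem cl_cntcont (h : S_rootcont) : S_cntcont := by
  intro d t T c hc ht hTd hTl hlim h0 hray
  by_contra hcon
  rw [Filter.not_eventually] at hcon
  obtain ⟨ψ, hψ, hψ2⟩ := Filter.extraction_of_frequently_atTop hcon
  have hcC : (c : ℂ)⁻¹ ≠ 0 := inv_ne_zero (by exact_mod_cast hc)
  have hinj : Function.Injective (algebraMap ℝ ℂ) := (algebraMap ℝ ℂ).injective
  have hmon : ∀ s : ℝ[X], s.natDegree = d → s.leadingCoeff = c →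
      (C (c : ℂ)⁻¹ * s.map (algebraMap ℝ ℂ)).Monic ∧
        (C (c : ℂ)⁻¹ * s.map (algebraMap ℝ ℂ)).natDegree = d := by
    intro s hs1 hs2
    constructor
    · rw [Polynomial.Monic, Polynomial.leadingCoeff_mul, Polynomial.leadingCoeff_C,
        Polynomial.leadingCoeff_map_of_injective hinj, hs2]
      exact inv_mul_cancel₀ (by exact_mod_cast hc)
    · rw [Polynomial.natDegree_C_mul hcC, Polynomial.natDegree_map_eq_of_injective hinj, hs1]
  obtain ⟨φ, hφ, ξ, η, hξ, hη, hconv⟩ := h d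
    (fun m => C (c : ℂ)⁻¹ * (t (ψ m)).map (algebraMap ℝ ℂ))
    (C (c : ℂ)⁻¹ * T.map (algebraMap ℝ ℂ))
    (fun m => hmon _ (ht _).1 (ht _).2) (hmon _ hTd hTl).1 (hmon _ hTd hTl).2
    (by
      intro k
      simp only [Polynomial.coeff_C_mul, Polynomial.coeff_map]
      refine Tendsto.const_mul _ ?_
      have h1 : Tendsto (fun m => (t (ψ m)).coeff k) atTop (𝓝 (T.coeff k)) :=
        (hlim k).comp hψ.tendsto_atTop
      exact (Complex.continuous_ofReal.tendsto _).comp h1)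
  have hrootsT := cnt_eq T _ hcC η hη
  have hroots : ∀ m, ((t (ψ (φ m))).map (algebraMap ℝ ℂ)).roots = Finset.univ.val.map (ξ m) :=
    fun m => cnt_eq _ _ hcC (ξ m) (hξ m)
  have hTne : T.map (algebraMap ℝ ℂ) ≠ 0 := by
    rw [Polynomial.map_ne_zero_iff hinj]
    intro h1
    rw [h1, Polynomial.leadingCoeff_zero] at hTl
    exact hc hTl.symm
  have haev : ∀ i, aeval (η i) T = 0 := by
    intro i
    have h1 : η i ∈ (T.map (algebraMap ℝ ℂ)).roots := by
      rw [hrootsT]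
      exact Multiset.mem_map_of_mem _ (Finset.mem_univ i)
    rw [Polynomial.mem_roots hTne, Polynomial.IsRoot.def, Polynomial.eval_map_algebraMap] at h1
    exact h1
  have hη0 : ∀ i, η i ≠ 0 := by
    intro i hi
    have h1 := haev i
    rw [hi, Polynomial.aeval_def, Polynomial.eval₂_at_zero] at h1
    exact h0 (by
      have h2 : ((T.coeff 0 : ℝ) : ℂ) = 0 := h1
      exact_mod_cast h2)
  have hside : ∀ i, ∀ᶠ m in atTop, (ξ m i ≠ 0 ∧ |(ξ m i).arg| ≤ Real.pi / 3) ↔
      (η i ≠ 0 ∧ |(η i).arg| ≤ Real.pi / 3) := by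
    intro i
    have hre : Tendsto (fun m => (ξ m i).re) atTop (𝓝 (η i).re) :=
      (Complex.continuous_re.tendsto _).comp (hconv i)
    have hno : Tendsto (fun m => ‖ξ m i‖ / 2) atTop (𝓝 (‖η i‖ / 2)) :=
      ((continuous_norm.tendsto _).comp (hconv i)).div_const 2
    have hne : ∀ᶠ m in atTop, ξ m i ≠ 0 := (hconv i).eventually_ne (hη0 i)
    rcases lt_trichotomy (η i).re (‖η i‖ / 2) with hlt | heq | hgt
    · filter_upwards [hre.eventually_lt hno hlt] with m hm
      rw [mem_iff, mem_iff]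
      constructor
      · rintro ⟨-, h2⟩
        exact absurd h2 (not_le.2 hm)
      · rintro ⟨-, h2⟩
        exact absurd h2 (not_le.2 hlt)
    · exfalso
      have hpos : 0 < ‖η i‖ := norm_pos_iff.2 (hη0 i)
      rcases bdry (hη0 i) heq with h1 | h1
      · exact (hray _ hpos).1 (by rw [← h1]; exact haev i)
      · exact (hray _ hpos).2 (by rw [← h1]; exact haev i)
    · filter_upwards [hno.eventually_lt hre hgt, hne] with m hm hm2
      rw [mem_iff, mem_iff]
      exact ⟨fun _ => ⟨hη0 i, hgt.le⟩, fun _ => ⟨hm2, hm.le⟩⟩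
  have hall : ∀ᶠ m in atTop, ∀ i, (ξ m i ≠ 0 ∧ |(ξ m i).arg| ≤ Real.pi / 3) ↔
      (η i ≠ 0 ∧ |(η i).arg| ≤ Real.pi / 3) := Filter.eventually_all.2 hside
  obtain ⟨m, hm⟩ := hall.exists
  refine hψ2 (φ m) ?_
  unfold cnt
  rw [hroots m, hrootsT, Multiset.filter_map, Multiset.filter_map, Multiset.card_map,
    Multiset.card_map]
  congr 1
  refine Multiset.filter_congr fun i _ => ?_
  exact hm i

end W96CL.W327
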